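import Pool.Agent.H176.DT.C13
import Pool.Agent.H176.DT.H8
import Pool.Agent.H176.DT.H12
import Pool.Agent.H176.DT.H13

/-!
MP_1a953e_ag: semistable uniformization, in all dimensions, of the points without defect whose
value group does not contain `|π|^(1/p)`, over discretely valued ground fields.

Let `k` be a (complete) discretely valued field with the ring of integers `O`, the uniformizer `π`
and the residue characteristic `p ≥ 0`. Let `X` be an integral projective `k`-scheme of any
dimension with the function field `K`, with the projective flat model `𝒳` over `O`, and let `v` be a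
point of the Berkovich analytification of `X` which lies over the generic point of `X`, that is, a
multiplicative norm `v` on `K` which extends the one of `k`. Suppose that `K` is reached from `k` by
a tower of transcendental steps without limit key polynomials and finite extensions without defect
with respect to `v`, and that `|π|` is not a `p`-th power in the value group of `v`. Then there are
numbers `d`, prime to `p`, and `N₀` such that, for every `N ≥ N₀` divisible by `d` (for example,
prime to `p`), for `l = k(ϖ)`, `ϖ ^ N = π`, with the ring of integers `O[ϖ]`, and for every preimage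
`v'` of `v` in the analytification of `X_l`, a blowing-up of `𝒳 ⊗ O[ϖ]` in a closed subscheme of the
special fibre, that is, an admissible blowing-up, is semistable at the specialization of `v'`: its
local ring is regular, and `ϖ` is a product of distinct elements of a regular system of parameters.
In particular, `v` is uniformizable, by a tamely ramified extension `l / k`. (The same can be
applied over a finite extension `k₁ / k`: it suffices that some preimage of `v` in the
analytification of `X ⊗ k₁` satisfies the two conditions over `k₁`.)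
-/

set_option autoImplicit false

universe u

namespace Pool.Agent.Results.MP_1a953e_ag.DefectlessPoints

open Pool.Agent.W418.LU2

/-- The local ring of `Spec B` at the centre of the valuation ring `V`: the fractions of elements
of `B` whose denominators are units of `V`. -/
def centreRing {F : Type u} [Field F] (V : ValuationSubring F) (B : Subring F) : Subring F where
  carrier := {x | ∃ a ∈ B, ∃ b ∈ B, b ≠ 0 ∧ b⁻¹ ∈ V ∧ x = a * b⁻¹}
  mul_mem' := (lo V.toSubring B).mul_mem'
  one_mem' := (lo V.toSubring B).one_mem'
  add_mem' := (lo V.toSubring B).add_mem'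
  zero_mem' := (lo V.toSubring B).zero_mem'
  neg_mem' := (lo V.toSubring B).neg_mem'

/-- The chart `A[I / f]` of the blowing-up of `Spec A` in the ideal `I`. -/
def blowUpChart {F : Type u} [Field F] (A : Subring F) (I : Ideal A) (f : A) : Subring F :=
  Subring.closure ((A : Set F) ∪ {z | ∃ a ∈ I, z = (a : F) / (f : F)})

/-- `P` is a regular local ring and the zero set of `J` is a divisor with strict normal
crossings: the radical of `J` is generated by the product of some of the elements of a regular
system of parameters. -/
def RegularPair (P : Type u) [CommRing P] (J : Ideal P) : Prop :=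
  ∃ (_ : IsRegularLocalRing P) (n : ℕ) (x : Fin n → P) (s : Finset (Fin n)),
    Ideal.span (Set.range x) = IsLocalRing.maximalIdeal P ∧ ringKrullDim P = n ∧
      J.radical = Ideal.span {∏ i ∈ s, x i}

/-- The blowing-up of `X = Spec A` in `V(I)` is a log desingularization of `(X, V(D))` along the
valuation ring `V`. Here `f ∈ I` generates `I V`, the centre of the lift of the valuation lies in
the chart `Spec A[I / f]`, and the ideal `D I` defines the preimage of `V(D) ∪ V(I)`. -/
def IsLogDesingularization {F : Type u} [Field F] (V : ValuationSubring F) (A : Subring F)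
    (D I : Ideal A) : Prop :=
  ∃ f ∈ I, f ≠ 0 ∧ (∀ a ∈ I, (a : F) / (f : F) ∈ V) ∧
    RegularPair (centreRing V (blowUpChart A I f))
      (Ideal.span {z | ∃ a ∈ D * I, (z : F) = (a : F)})

/-- The valuation ring `V` is log uniformizable on `Spec A`. (The blowings-up in the ideals
`I₀ * I₁` are cofinal: the blowing-up in `I₀ * I₁` factors through the blowing-up in `I₀`.) -/
def IsLogUniformizable {F : Type u} [Field F] (V : ValuationSubring F) (A : Subring F) : Prop :=
  ∀ D I₀ : Ideal A, D ≠ ⊥ → I₀ ≠ ⊥ →
    ∃ I₁ : Ideal A, I₁ ≠ ⊥ ∧ IsLogDesingularization V A D (I₀ * I₁)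

/-- The subring `P` of the field `K` is a regular local ring, and `ϖ` is the product of some (at
least one) of the elements of a regular system of parameters. (If `ϖ` is a uniformizer of a discrete
valuation ring `O` with perfect residue field and `P` is the local ring of an integral flat
`O`-scheme of finite type at a point of the special fibre, then these elements `t i` define a
morphism from a neighbourhood of this point to `Spec O[t 0, ..., t d] / (t 0 * ... * t d - ϖ)` which
is flat with regular, hence smooth, fibre through this point; so it is smooth there.) -/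
def IsSemistable {K : Type u} [Field K] (P : Subring K) (ϖ : K) : Prop :=
  ∃ (_ : IsRegularLocalRing P) (n : ℕ) (x : Fin n → P) (S : Finset (Fin n)),
    Ideal.span (Set.range x) = IsLocalRing.maximalIdeal P ∧ ringKrullDim P = n ∧
      S.Nonempty ∧ ϖ = ∏ i ∈ S, (x i : K)

/-- The coordinate ring `O[v / w : v ∈ W]` of the chart `w ≠ 0` of the projective `O`-scheme
`Proj O[W]` with the function field `K` and the homogeneous coordinates `W ⊆ K`. -/
def chart {K : Type u} [Field K] (O : Subring K) (W : Set K) (w : K) : Subring K :=
  Subring.closure ((O : Set K) ∪ {z | ∃ v ∈ W, z = v / w})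

/-- `Y` is a finite set of forms of some degree `d` over `O` in the homogeneous coordinates `W`,
and `p ^ n` times any form of degree `d` is a linear combination of the forms in `Y`, for some `n`.
So the closed subscheme of `Proj O[W]` defined by the forms in `Y` is contained in the
fibre over `p`. -/
def IsVerticalCentre {K : Type u} [Field K] (O : Subring K) (p : K) (W Y : Set K) : Prop :=
  Y.Finite ∧ ∃ d n : ℕ, Y ⊆ ((Submodule.span O W) ^ d : Submodule O K) ∧
    ∀ z ∈ (Submodule.span O W) ^ d, p ^ n * z ∈ Submodule.span O Y

/-- The homogeneous coordinates of the blowing-up of `Proj O[W]` in the closed subscheme which is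
defined by the forms in `Y`. -/
def blowUpCoordinates {K : Type u} [Field K] (W Y : Set K) : Set K :=
  {z | ∃ y ∈ Y, ∃ v ∈ W, z = y * v}

/-- The projective scheme `Proj O[W]` is semistable at the centre of `V`, which lies in the chart
`w ≠ 0`. -/
def IsSemistableAt {K : Type u} [Field K] (V : ValuationSubring K) (O : Subring K) (W : Set K)
    (ϖ : K) : Prop :=
  ∃ w ∈ W, w ≠ 0 ∧ (∀ v ∈ W, v / w ∈ V) ∧ IsSemistable (centreRing V (chart O W w)) ϖ

/-- The ring `O[ϖ]`. (If `O` is a discrete valuation ring with the uniformizer `π = ϖ ^ N`, then it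
is the ring of integers of the totally ramified extension `k(ϖ)` of the field of fractions `k` of
`O`.) -/
def ramifiedRing {L K' : Type u} [Field L] [Field K'] (φ : L →+* K') (O : Subring L) (ϖ : K') :
    Subring K' :=
  Subring.closure ((O.map φ : Set K') ∪ {ϖ})

section key

open Polynomial

variable {K : Type u} [Field K] (V : ValuationSubring K) {L : Subfield K} (θ : K)

/-- The monic polynomial `ϕ` over `L` of positive degree is a key polynomial for the valuation
`f ↦ |f(θ)|` of polynomials: if `f` and `g` are nonzero polynomials of smaller degree and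
`f g = q ϕ + r` with `deg r < deg ϕ`, then `|q(θ) ϕ(θ)| < |f(θ) g(θ)|`. (So `|r(θ)| = |f(θ) g(θ)|`,
and the values of the polynomials of smaller degree define a valuation of `L[X] / (ϕ)`.) -/
def IsKey (ϕ : L[X]) : Prop :=
  ϕ.Monic ∧ 0 < ϕ.natDegree ∧ ∀ f g : L[X], f.degree < ϕ.degree → g.degree < ϕ.degree →
    f ≠ 0 → g ≠ 0 → V.valuation (aeval θ (f * g /ₘ ϕ * ϕ)) < V.valuation (aeval θ (f * g))

/-- The polynomials of degree less than the degree of `ϕ` have an orthogonal basis over `L` with
respect to the valuation `f ↦ |f(θ)|`. (For a key polynomial `ϕ` this means that the valued field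
`L[X] / (ϕ)` is an extension of `L` of degree `e f`. It holds if there are no limit key
polynomials of degree at most `deg ϕ`.) -/
def IsDefectless (ϕ : L[X]) : Prop :=
  ∃ (n : ℕ) (β : Fin n → L[X]), (∀ i, (β i).degree < ϕ.degree ∧ β i ≠ 0) ∧
    (∀ f : L[X], f.degree < ϕ.degree → ∃ c : Fin n → L, f = ∑ i, C (c i) * β i) ∧
    ∀ (c : Fin n → L) (i : Fin n), V.valuation (aeval θ (C (c i) * β i)) ≤
      V.valuation (aeval θ (∑ j, C (c j) * β j))

/-- The value of `f(θ)` is determined by `ϕ`: in the `ϕ`-adic expansion `f = ∑ f_k ϕ ^ k` with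
`deg f_k < deg ϕ` the value of no term at `θ` is greater than the value of `f(θ)`. -/
def IsDetermined (ϕ f : L[X]) : Prop :=
  ∃ (N : ℕ) (d : ℕ → L[X]), (∀ k, (d k).degree < ϕ.degree) ∧
    f = ∑ k ∈ Finset.range N, d k * ϕ ^ k ∧
    ∀ k < N, V.valuation (aeval θ (d k * ϕ ^ k)) ≤ V.valuation (aeval θ f)

end key

open Polynomial in
/-- The extension `L ⊆ L'` of subfields of `K` is finite and has no defect with respect to the
valuation ring `V` of `K`. That is, for some valuation ring `W` over `V` of some extension field
`M` of `K`, some root `ζ ∈ M` of a monic polynomial `f` over `V ∩ L` with `|f'(ζ)| = 1`, and some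
nonzero elements `β i` of `L'`, the field `L'(ζ)` is the sum of the lines `L(ζ) β i`, and the `β
i` are orthogonal over `L(ζ) = L[ζ]`. (The extension `L(ζ) / L` is unramified. If `L^h ⊆ L'^h ⊆
K^h` are the henselizations for `V` and `[L'^h : L^h] = e f`, then this holds with `M = K^h`,
`L(ζ)` a large finite subextension of `L^h / L`, and with products of `e` elements of `L'` whose
values represent the cosets of the value group and `f` elements of `L'` whose residues form a
basis for the `β i`. For `M = K` and `L(ζ) = L` it is the condition `[L' : L] = e f`.) -/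
def IsFiniteWithoutDefect {K : Type u} [Field K] (V : ValuationSubring K) (L L' : Subfield K) :
    Prop :=
  L ≤ L' ∧ ∃ (M : Type u) (_ : Field M) (_ : Algebra K M) (W : ValuationSubring M) (ζ : M)
    (f : L[X]) (n : ℕ) (β : Fin n → K), W.comap (algebraMap K M) = V ∧ f.Monic ∧
    (∀ i, (f.coeff i : K) ∈ V) ∧ eval₂ ((algebraMap K M).comp L.subtype) ζ f = 0 ∧
    W.valuation (eval₂ ((algebraMap K M).comp L.subtype) ζ (derivative f)) = 1 ∧
    (∀ i, β i ∈ L' ∧ β i ≠ 0) ∧
    (∀ z ∈ L', ∃ c : Fin n → L[X], algebraMap K M z =
      ∑ i, eval₂ ((algebraMap K M).comp L.subtype) ζ (c i) * algebraMap K M (β i)) ∧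
    ∀ (c : Fin n → L[X]) (i : Fin n),
      W.valuation (eval₂ ((algebraMap K M).comp L.subtype) ζ (c i) * algebraMap K M (β i)) ≤
        W.valuation (∑ j, eval₂ ((algebraMap K M).comp L.subtype) ζ (c j) * algebraMap K M (β j))

open Polynomial in
/-- The subfields `L` of `K` which are reached from the field `E` by a tower of steps without
defect with respect to the valuation ring `V` of `K`. -/
inductive Tower (E : Type u) {K : Type u} [Field E] [Field K] [Algebra E K]
    (V : ValuationSubring K) : Subfield K → Prop
  /-- The tower starts with (the image of) `E`. -/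
  | base : Tower E V (algebraMap E K).fieldRange
  /-- The step from `L` to `L(t)`, where `t` is transcendental and the value of every polynomial in
  `t` is determined by a defectless key polynomial. (This holds if the valuation of `L(t)` has no
  limit key polynomials; for example, if `L` is algebraically closed, if `t` is a limit of a
  pseudo-convergent sequence of transcendental type, or if the value or the residue of a
  defectless key polynomial at `t` is transcendental over `L`.) -/
  | transcendental (L : Subfield K) (t : K) : Tower E V L → Transcendental L t →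
    (∀ f : L[X], ∃ ϕ : L[X], IsKey V t ϕ ∧ IsDefectless V t ϕ ∧ IsDetermined V t ϕ f) →
    Tower E V (L ⊔ Subfield.closure {t})
  /-- The step from `L` to a finite extension `L'` without defect. -/
  | finite (L L' : Subfield K) : Tower E V L → IsFiniteWithoutDefect V L L' → Tower E V L'

/-- `K' = K(ϖ)` with `ϖ ^ N = π`, and `V'` is a valuation ring of `K'` over the valuation ring `V`
of `K`. -/
def IsLift {K K' : Type u} [Field K] [Field K'] [Algebra K K'] (V : ValuationSubring K) (π : K)
    (N : ℕ) (V' : ValuationSubring K') (ϖ : K') : Prop :=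
  V'.comap (algebraMap K K') = V ∧ ϖ ^ N = algebraMap K K' π ∧
    ∀ z : K', z ∈ Subfield.closure (Set.range (algebraMap K K') ∪ {ϖ})

/-- Let `v` be a multiplicative norm on a field `K` with the valuation ring `V`. Let `O ⊆ V` be a
subring of a field `L ⊆ K` (for example, `L = k` and `O = k°` for a discretely valued field `k`),
and let `π ≠ 0` be an element of `O` with `|π| < 1` (for example, a uniformizer of `k`). Let `R ⊆ V`
be a noetherian `O`-algebra of finite type with fraction field `L` (for example, `R = O`), such that
`R` is a Dedekind ring or `V ∩ L` is log uniformizable on `Spec R`. Suppose that `K` is reached from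
`L` by a tower as above, and that `|π|` is not a `p`-th power in the value group of `v` if `p` is
the residue characteristic of `v`. Let `𝒳` be an integral projective `O`-scheme with function field
`K` and with the homogeneous coordinates `W`.

Then there are `d` with `|d| = 1` and `N₀` such that for all `N ≥ N₀` divisible by `d` there are
`K' = K(ϖ)`, `ϖ ^ N = π`, and valuation rings `V'` of `K'` over `V`, and for all such `K'` and `V'`
there is a closed subscheme of the fibre of `𝒳 ⊗ O[ϖ]` over `ϖ = 0` such that the blowing-up in this
subscheme (the main component if `K ⊗ k(ϖ)` is not a field) is semistable at the centre of `V'`. -/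
theorem result {L K : Type u} [Field L] [Field K] [Algebra L K] (v : Valuation K NNReal)
    (O R : Subring L) [IsNoetherianRing R] (U : Set L) (hU : U.Finite)
    (hOR : R = Subring.closure ((O : Set L) ∪ U))
    (hfr : ∀ z : L, ∃ a ∈ R, ∃ b ∈ R, b ≠ 0 ∧ z = a * b⁻¹)
    (hRV : ∀ a ∈ R, v (algebraMap L K a) ≤ 1)
    (hR : IsDedekindDomain R ∨
      IsLogUniformizable (v.valuationSubring.comap (algebraMap L K)) R)
    (hK : Tower L v.valuationSubring ⊤)
    (π : L) (_hπ : π ∈ O) (hπ0 : π ≠ 0) (hπ1 : v (algebraMap L K π) < 1)
    (hdiv : ∀ p : ℕ, p.Prime → v (p : K) < 1 → ∀ z : K, v z ^ p ≠ v (algebraMap L K π))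
    (W : Set K) (hW : W.Finite) (w : K) (hw : w ∈ W) (hw0 : w ≠ 0)
    (hwV : ∀ z ∈ W, v (z / w) ≤ 1)
    (hWK : ∀ z : K, ∃ a ∈ chart (O.map (algebraMap L K)) W w,
      ∃ b ∈ chart (O.map (algebraMap L K)) W w, b ≠ 0 ∧ z = a * b⁻¹) :
    ∃ d N₀ : ℕ, 0 < d ∧ v (d : K) = 1 ∧ ∀ N : ℕ, N₀ ≤ N → d ∣ N →
      (∃ (K' : Type u) (_ : Field K') (_ : Algebra K K') (V' : ValuationSubring K') (ϖ : K'),
        IsLift v.valuationSubring (algebraMap L K π) N V' ϖ) ∧
      ∀ {K' : Type u} [Field K'] [Algebra K K'] (V' : ValuationSubring K') (ϖ : K'),
        IsLift v.valuationSubring (algebraMap L K π) N V' ϖ →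
        ∃ Y : Set K',
          IsVerticalCentre (ramifiedRing ((algebraMap K K').comp (algebraMap L K)) O ϖ) ϖ
            (algebraMap K K' '' W) Y ∧
          IsSemistableAt V' (ramifiedRing ((algebraMap K K').comp (algebraMap L K)) O ϖ)
            (blowUpCoordinates (algebraMap K K' '' W) Y) ϖ := by
  have hRW : R ≤ (v.valuationSubring.comap (algebraMap L K)).toSubring := fun a ha => hRV a ha
  have hLU : LogUnif (v.valuationSubring.comap (algebraMap L K)) R := by
    rcases hR with hR | hR
    · exact logUnif_of_dedekind _ R hRW hfr
    · exact hR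
  have kp : ∀ {M : Subfield K} {θ : K} {ϕ : Polynomial M}, IsKey v.valuationSubring θ ϕ →
      IsDefectless v.valuationSubring θ ϕ →
      ∃ (n : ℕ) (β : Fin n → Polynomial M), Pool.Agent.H176.DT.KP v.valuationSubring θ ϕ β := by
    rintro M θ ϕ ⟨h1, h2, h3⟩ ⟨n, β, h4, h5, h6⟩
    exact ⟨n, β, h1, h2, fun i => (h4 i).1, fun i => (h4 i).2, h5, h6, h3⟩
  have key : ∀ M : Subfield K, Tower L v.valuationSubring M →
      Pool.Agent.H176.DT.Inv v.valuationSubring (R.map (algebraMap L K)) M.subtype := by
    intro M hM
    induction hM with
    | base => exact Pool.Agent.H176.DT.sub_base v.valuationSubring R ⟨hRW, hfr⟩ hLU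
    | transcendental L t _ ht hdom ih =>
      refine Pool.Agent.H176.DT.sub_trans v.valuationSubring _ t ht (fun f => ?_) ih
      obtain ⟨ϕ, h1, h2, N, d, h3, h4, h5⟩ := hdom f
      obtain ⟨n, β, h6⟩ := kp h1 h2
      exact ⟨ϕ, n, β, h6, N, d, ⟨h3, h4⟩, h5⟩
    | finite L L' _ hnd ih => exact Pool.Agent.H176.DT.sub_nd v.valuationSubring _ hnd.1 hnd.2 ih
  have hO : ∀ a ∈ O.map (algebraMap L K), v a ≤ 1 := by
    rintro _ ⟨a, ha, rfl⟩
    refine hRV a ?_
    rw [hOR]
    exact Subring.subset_closure (Or.inl ha)
  set O' : Subring K := O.map (algebraMap L K) with hO'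
  have hU' : (algebraMap L K '' U).Finite := hU.image _
  have hUV : ∀ u ∈ algebraMap L K '' U, u ∈ v.valuationSubring := by
    rintro _ ⟨a, ha, rfl⟩
    refine hRV a ?_
    rw [hOR]
    exact Subring.subset_closure (Or.inr ha)
  have hchV : chart O' W w ≤ v.valuationSubring.toSubring := by
    unfold chart
    rw [Subring.closure_le]
    rintro z (hz | ⟨y, hy, rfl⟩)
    · exact hO z hz
    · exact hwV y hy
  have hMod : Pool.Agent.H176.DT.Mod v.valuationSubring (chart O' W w) := ⟨hchV, hWK⟩
  have hmap : R.map (algebraMap L K) = Subring.closure ((O' : Set K) ∪ algebraMap L K '' U) := by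
    rw [hOR, RingHom.map_closure, Set.image_union]
    rfl
  have hcl : Subring.closure ((chart O' W w : Set K) ∪ algebraMap L K '' U) =
      Subring.closure ((R.map (algebraMap L K) : Set K) ∪ (fun y => y / w) '' W) := by
    rw [hmap]
    apply le_antisymm
    · rw [Subring.closure_le]
      rintro z (hz | hz)
      · refine (?_ : chart O' W w ≤ _) hz
        unfold chart
        rw [Subring.closure_le]
        rintro z (hz | ⟨y, hy, rfl⟩)
        · exact Subring.subset_closure (Or.inl (Subring.subset_closure (Or.inl hz)))
        · exact Subring.subset_closure (Or.inr ⟨y, hy, rfl⟩)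
      · exact Subring.subset_closure (Or.inl (Subring.subset_closure (Or.inr hz)))
    · rw [Subring.closure_le]
      rintro z (hz | ⟨y, hy, rfl⟩)
      · refine (?_ : Subring.closure ((O' : Set K) ∪ algebraMap L K '' U) ≤ _) hz
        rw [Subring.closure_le]
        rintro z (hz | hz)
        · exact Subring.subset_closure (Or.inl (Subring.subset_closure (Or.inl hz)))
        · exact Subring.subset_closure (Or.inr hz)
      · exact Subring.subset_closure (Or.inl (Subring.subset_closure (Or.inr ⟨y, hy, rfl⟩)))
  have hle : chart O' W w ≤ Subring.closure ((chart O' W w : Set K) ∪ algebraMap L K '' U) :=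
    fun z hz => Subring.subset_closure (Or.inl hz)
  have hMod2 : Pool.Agent.H176.DT.Mod v.valuationSubring
      (Subring.closure ((chart O' W w : Set K) ∪ algebraMap L K '' U)) := by
    refine ⟨?_, fun z => ?_⟩
    · rw [Subring.closure_le]
      rintro z (hz | hz)
      · exact hchV hz
      · exact hUV z hz
    · obtain ⟨a, ha, b, hb, h⟩ := hWK z
      exact ⟨a, hle ha, b, hle hb, h⟩
  have h1 := Pool.Agent.H176.DT.inv_SU v.valuationSubring (key ⊤ hK) _
    ((fun y => y / w) '' W) (hW.image _) hcl
    hMod2
  have h2 : Pool.Agent.H176.DT.SU v.valuationSubring (chart O' W w) :=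
    (Pool.Agent.H176.DT.p_move v.valuationSubring (chart O' W w) hMod _ hU' hUV).2 h1
  obtain ⟨d, N₀, hd, hvd, h3⟩ := Pool.Agent.H176.DT.ss_main Pool.Agent.H176.DT.p_et6
    Pool.Agent.H176.DT.p_tor6 Pool.Agent.H176.DT.p_comb6 v O' hO hW hw hw0 hwV hMod h2
    (algebraMap L K π) ((_root_.map_ne_zero _).2 hπ0) hπ1 hdiv
  refine ⟨d, N₀ + 1, hd, hvd, fun N hN' hdN =>
    ⟨Pool.Agent.H176.DT.exists_root _ _ (by omega), ?_⟩⟩
  have hN : N₀ ≤ N := by omega
  rintro K' _ _ V' ϖ ⟨hV', hϖ, hgen⟩
  obtain ⟨Y, d', n', h4, h5, h6, w', h7, h8, h9, P, h10, h11⟩ := h3 N hN hdN V' ϖ hV' hϖ hgen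
  have h12 : ramifiedRing ((algebraMap K K').comp (algebraMap L K)) O ϖ =
      Pool.Agent.H176.DT.Orm O' ϖ := by
    unfold ramifiedRing Pool.Agent.H176.DT.Orm
    rw [hO', Subring.map_map]
  rw [h12]
  refine ⟨Y, ⟨h4, d', n', h5, h6⟩, w', h7, h8, h9, ?_⟩
  have h13 : centreRing V' (chart (Pool.Agent.H176.DT.Orm O' ϖ)
      (blowUpCoordinates (algebraMap K K' '' W) Y) w') = P := h10
  rw [h13]
  exact h11

end Pool.Agent.Results.MP_1a953e_ag.DefectlessPoints
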